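import Mathlib
import Pool.Agent.H.MP_7de56e_co.Core

set_option autoImplicit false

namespace Pool.Agent.Results.MP_7de56e_co.Limit

open Finset Filter Topology Pool.Agent.H.MP_7de56e_co

/-- the graph of the edges of colour `j` -/
def G {n k : ℕ} (c : Sym2 (Fin n) → Fin k) (j : Fin k) : SimpleGraph (Fin n) :=
  SimpleGraph.fromEdgeSet {e | c e = j}

noncomputable def deg {n : ℕ} (H : SimpleGraph (Fin n)) (v : Fin n) : ℕ := (H.neighborSet v).ncard

/-- every `k`-colouring of `K_n` has a monochromatic degree-monotone path of order three -/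
def Forces (k n : ℕ) : Prop :=
  ∀ c : Sym2 (Fin n) → Fin k, ∃ j u v w, u ≠ w ∧ (G c j).Adj u v ∧ (G c j).Adj v w ∧
    deg (G c j) u ≤ deg (G c j) v ∧ deg (G c j) v ≤ deg (G c j) w

noncomputable def M (k : ℕ) : ℕ := sInf {m | ∀ n, m ≤ n → Forces k n}

lemma upper (k n : ℕ) (h : 2 ^ k + 1 ≤ n) : Forces k n := by
  classical
  intro c
  by_contra ne
  push Not at ne
  let key : Fin k → Fin n → ℕ ×ₗ Fin n := fun j v => toLex (deg (G c j) v, v)
  have mono : ∀ j u v, key j u < key j v → deg (G c j) u ≤ deg (G c j) v := fun j u v e =>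
    Prod.Lex.monotone_fst _ _ e.le
  let f : Fin n → Fin k → Bool := fun v j => decide (∃ w, (G c j).Adj w v ∧ key j w < key j v)
  have half : ∀ j u v, (G c j).Adj u v → key j u < key j v → f u j ≠ f v j := by
    intro j u v a l e
    have : f v j = true := decide_eq_true ⟨u, a, l⟩
    obtain ⟨w, w1, w2⟩ := of_decide_eq_true (e.trans this)
    exact absurd (mono _ _ _ l) (not_le.2 (ne j w u v
      (fun q => lt_asymm l (q ▸ w2)) w1 a (mono _ _ _ w2)))
  have inj : Function.Injective f := fun u v e => by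
    by_contra uv
    have a : (G c (c s(u, v))).Adj u v := ⟨rfl, uv⟩
    rcases lt_or_gt_of_ne (show key (c s(u, v)) u ≠ key (c s(u, v)) v from fun q =>
      uv (congrArg (fun p => (ofLex p).2) q)) with l | l
    · exact half _ u v a l (congrFun e _)
    · exact half _ v u a.symm l (congrFun e _).symm
  have := Fintype.card_le_of_injective f inj
  simp at this
  omega

lemma lower (a k : ℕ) (h1 : 3 * a ≤ k) (h2 : k < 3 * a + 3) (h3 : k * 15 ≤ 2 ^ a) (h4 : 0 < k) :
    ∃ n r, ¬ Forces k n ∧ n + r = 2 ^ k ∧ r * 2 ^ a ≤ 3 * 2 ^ k := by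
  classical
  haveI : Nonempty (Fin k) := ⟨⟨0, h4⟩⟩
  let blk : Fin k → Fin 3 := fun j => ⟨j % 3, Nat.mod_lt _ (by omega)⟩
  let ix : Fin a → Fin 3 → Fin k := fun m i => ⟨3 * m + i, by omega⟩
  let σ : (Fin k → ZMod 2) →+ (Fin a → ZMod 2) :=
    { toFun := fun x m => ∑ i, x (ix m i)
      map_zero' := by funext m; simp
      map_add' := fun x y => by funext m; simp [sum_add_distrib] }
  have sur : ∀ l s, ∃ δ, σ (res blk l δ) = s := fun l s =>
    ⟨fun j => if h : (j : ℕ) / 3 < a then s ⟨j / 3, h⟩ else 0, funext fun m => by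
      have b : ∀ i, blk (ix m i) = i := fun i => Fin.ext (by simp only [blk, ix]; omega)
      have d : ((ix m l : Fin k) : ℕ) / 3 = m := by simp only [ix]; omega
      show ∑ i, res blk l _ (ix m i) = s m
      simp only [res_apply, b, sum_ite_eq', mem_univ, if_true, d, m.2, dif_pos]⟩
  have cG : Fintype.card (Fin a → ZMod 2) = 2 ^ a := by simp
  obtain ⟨c, c1, c2⟩ := core blk σ sur (fun l => by
    rw [cG, ← pow_succ']
    refine Nat.pow_le_pow_right (by omega) ((Fintype.card_le_of_injective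
      (fun j => (⟨(j.1 : ℕ) / 3, by omega⟩ : Fin (a + 1))) fun x y e => ?_).trans (by simp))
    have p := Fin.ext_iff.1 (x.2.trans y.2.symm)
    have q := Fin.ext_iff.1 e
    simp only [blk] at p q
    exact Subtype.ext (Fin.ext (by omega))) (by simpa using h3)
  have sm := small blk σ sur
  rw [cG, Fintype.card_fin] at sm
  let S : Finset (Fin k → ZMod 2) := {x | ∀ i, res blk i x ≠ 0}
  refine ⟨#S, _, fun F => ?_, ?_, sm⟩
  · let e := S.equivFin.symm
    let col : Sym2 (Fin #S) → Fin k :=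
      Sym2.lift ⟨fun u v => c (e u + e v), fun u v => congrArg c (add_comm _ _)⟩
    have mem : ∀ u i, res blk i (e u) ≠ 0 := fun u => (mem_filter.1 (e u).2).2
    have nz : ∀ u v, u ≠ v → (e u : Fin k → ZMod 2) + e v ≠ 0 := fun u v h z =>
      h (e.injective (Subtype.ext (add_left_cancel ((aa _).trans z.symm))))
    have dg : ∀ j v, deg (G col j) v +
        #{x | (x ≠ 0 ∧ c x = j) ∧ ¬ ∀ i, res blk i (e v + x) ≠ 0} = #{x | x ≠ 0 ∧ c x = j} := by
      intro j v
      rw [← card_filter_add_card_filter_not (s := {x | x ≠ 0 ∧ c x = j})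
        fun x => ∀ i, res blk i (e v + x) ≠ 0, filter_filter, filter_filter]
      congr 1
      refine Eq.trans (Set.ncard_congr (fun w _ => (e v : Fin k → ZMod 2) + e w) (fun w hw => ?_)
        (fun w w' _ _ q => e.injective (Subtype.ext (add_left_cancel q))) fun x hx => ?_)
        (Set.ncard_coe_finset _)
      · simp only [coe_filter, mem_univ, true_and, Set.mem_ofPred_eq]
        refine ⟨⟨nz _ _ hw.2, hw.1⟩, fun i => ?_⟩
        rw [← add_assoc, aa, zero_add]
        exact mem w i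
      · simp only [coe_filter, mem_univ, true_and, Set.mem_ofPred_eq] at hx
        have q : (e v : Fin k → ZMod 2) + e (e.symm ⟨e v + x, mem_filter.2 ⟨mem_univ _, hx.2⟩⟩) = x := by
          rw [e.apply_symm_apply, ← add_assoc, aa, zero_add]
        refine ⟨_, ⟨?_, fun z => hx.1.1 ?_⟩, q⟩
        · exact (congrArg c q).trans hx.1.2
        · rw [← q, ← z, aa]
    have lt : ∀ j u v, (e u : Fin k → ZMod 2) j = 0 → (e v : Fin k → ZMod 2) j ≠ 0 →
        deg (G col j) v < deg (G col j) u := fun j u v p q => by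
      have := c2 j _ _ (mem u) (mem v) p q
      have := dg j u
      have := dg j v
      omega
    have df : ∀ j u v, (G col j).Adj u v →
        (e u : Fin k → ZMod 2) j + (e v : Fin k → ZMod 2) j ≠ 0 := fun j u v h => by
      have p := c1 _ (nz u v h.ne)
      have q : c (e u + e v) = j := h.1
      rwa [q] at p
    obtain ⟨j, u, v, w, -, a1, a2, d1, d2⟩ := F col
    have z2 : ∀ p q : ZMod 2, p + q ≠ 0 → q ≠ 0 → p = 0 := by decide
    by_cases hv : (e v : Fin k → ZMod 2) j = 0
    · exact absurd (lt j v w hv (by simpa [hv] using df j v w a2)) (not_lt.2 d2)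
    · exact absurd (lt j u v (z2 _ _ (df j u v a1) hv) hv) (not_lt.2 d1)
  · rw [card_filter_add_card_filter_not]
    simp

lemma least (k : ℕ) : IsLeast {m | ∀ n, m ≤ n → Forces k n} (M k) :=
  ⟨Nat.sInf_mem ⟨_, upper k⟩, fun _ h => Nat.sInf_le h⟩

lemma pw (a : ℕ) (h : 9 ≤ a) : (3 * a + 3) * 15 ≤ 2 ^ a := by
  induction a, h using Nat.le_induction with
  | base => norm_num
  | succ a h ih => rw [pow_succ]; omega

theorem result : (∀ k, IsLeast {m | ∀ n, m ≤ n → Forces k n} (M k)) ∧
    Tendsto (fun k : ℕ => (M k : ℝ) / 2 ^ k) atTop (𝓝 1) := by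
  refine ⟨least, ?_⟩
  have t0 : Tendsto (fun k : ℕ => ((1 : ℝ) / 2) ^ k) atTop (𝓝 0) :=
    tendsto_pow_atTop_nhds_zero_of_lt_one (by norm_num) (by norm_num)
  have t1 : Tendsto (fun k : ℕ => 1 - 3 * ((1 : ℝ) / 2) ^ (k / 3)) atTop (𝓝 1) := by
    simpa using ((t0.comp (Nat.tendsto_div_const_atTop (by norm_num : 3 ≠ 0))).const_mul 3).const_sub 1
  have t2 : Tendsto (fun k : ℕ => 1 + ((1 : ℝ) / 2) ^ k) atTop (𝓝 1) := by
    simpa using t0.const_add 1
  refine tendsto_of_tendsto_of_tendsto_of_le_of_le' t1 t2 ?_ (Eventually.of_forall fun k => ?_)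
  · filter_upwards [eventually_ge_atTop 27] with k hk
    have p := pw (k / 3) (by omega)
    obtain ⟨n, r, f, e1, e2⟩ := lower (k / 3) k (by omega) (by omega) (by omega) (by omega)
    have g : n ≤ M k := not_lt.1 fun q => f ((least k).1 n q.le)
    have g' : (n : ℝ) ≤ M k := by exact_mod_cast g
    have e1' : (n : ℝ) + r = 2 ^ k := by exact_mod_cast e1
    have e2' : (r : ℝ) * 2 ^ (k / 3) ≤ 3 * 2 ^ k := by exact_mod_cast e2
    have e3 : (r : ℝ) ≤ 3 * 2 ^ k / 2 ^ (k / 3) := by rwa [le_div_iff₀ (by positivity)]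
    rw [le_div_iff₀ (by positivity), one_div_pow]
    have : (1 - 3 * (1 / 2 ^ (k / 3)) : ℝ) * 2 ^ k = 2 ^ k - 3 * 2 ^ k / 2 ^ (k / 3) := by ring
    linarith
  · have g : M k ≤ 2 ^ k + 1 := (least k).2 (upper k)
    have g' : (M k : ℝ) ≤ 2 ^ k + 1 := by exact_mod_cast g
    rw [div_le_iff₀ (by positivity), one_div_pow, add_mul, one_mul, one_div_mul_cancel (by positivity)]
    exact g'

end Pool.Agent.Results.MP_7de56e_co.Limit
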